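import Pool.Agent.Q6.TY.Stm2
import Pool.Agent.Q121.DetLB.Hadamard

/-!
# Separated points in the kernel of an integer matrix on a torus
-/

set_option autoImplicit false
set_option maxHeartbeats 400000

namespace Pool.Agent.Q128.TY.HAD

open Finset Matrix

theorem hadamard {ι : Type} [Fintype ι] [DecidableEq ι] (M : Matrix ι ι ℝ) (c : ℝ)
    (h : ∀ i, ∑ j, M i j ^ 2 ≤ c) : |M.det| ≤ Real.sqrt c ^ Fintype.card ι := by
  let e := Fintype.equivFin ι
  have h1 := Q121.DetLB.hadamard_ineq (M.submatrix e.symm e.symm)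
  rw [Matrix.det_submatrix_equiv_self] at h1
  have h2 : ∀ i, (M.submatrix e.symm e.symm) i ⬝ᵥ (M.submatrix e.symm e.symm) i ≤ c := by
    intro i
    have : (M.submatrix e.symm e.symm) i ⬝ᵥ (M.submatrix e.symm e.symm) i =
        ∑ j, M (e.symm i) j ^ 2 := by
      simp only [dotProduct, Matrix.submatrix_apply]
      rw [← Equiv.sum_comp e.symm]
      exact Finset.sum_congr rfl fun j _ => by ring
    rw [this]
    exact h _
  have h3 : M.det ^ 2 ≤ c ^ Fintype.card ι := by
    refine h1.trans ?_
    calc _ ≤ ∏ _i : Fin (Fintype.card ι), c := by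
          refine Finset.prod_le_prod (fun i _ => ?_) fun i _ => h2 i
          simp only [dotProduct]
          exact Finset.sum_nonneg fun j _ => mul_self_nonneg _
      _ = _ := by simp
  have h4 : |M.det| = Real.sqrt (M.det ^ 2) := (Real.sqrt_sq_eq_abs _).symm
  rw [h4]
  refine (Real.sqrt_le_sqrt h3).trans ?_
  by_cases hc : 0 ≤ c
  · rw [Real.sqrt_le_left (by positivity), ← pow_mul, mul_comm, pow_mul, Real.sq_sqrt hc]
  · rcases isEmpty_or_nonempty ι with hι | ⟨⟨i⟩⟩
    · simp
    · exact absurd ((Finset.sum_nonneg fun j _ => sq_nonneg (M i j)).trans (h i)) hc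

/-- all maximal minors vanish, then the rows are dependent -/
theorem det_mul_zero {m n K : Type} [Fintype m] [DecidableEq m] [Fintype n] [DecidableEq n]
    [Field K] (A : Matrix m n K) (B : Matrix n m K)
    (h : ∀ p : m → n, (A.submatrix id p).det = 0) : (A * B).det = 0 := by
  rw [← Matrix.det_transpose]
  have e1 : (A * B)ᵀ = fun i => ∑ w, B w i • (fun g => A g w) := by
    ext i g
    simp [Matrix.mul_apply, Finset.sum_apply, mul_comm]
  rw [e1]
  have e2 := (Matrix.detRowAlternating (R := K) (n := m)).toMultilinearMap.map_sum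
    (fun i w => B w i • (fun g => A g w))
  have e3 : Matrix.det (fun i => ∑ w, B w i • (fun g => A g w)) =
      ∑ p : m → n, Matrix.det (fun i => B (p i) i • (fun g => A g (p i))) := e2
  rw [e3]
  refine Finset.sum_eq_zero fun p _ => ?_
  have e4 := (Matrix.detRowAlternating (R := K) (n := m)).toMultilinearMap.map_smul_univ
    (fun i => B (p i) i) (fun i => (fun g => A g (p i)))
  have e5 : Matrix.det (fun i => B (p i) i • (fun g => A g (p i))) =
      (∏ i, B (p i) i) • Matrix.det (fun i => (fun g => A g (p i))) := e4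
  rw [e5]
  have e6 : Matrix.det (fun i => (fun g => A g (p i))) = (A.submatrix id p).det := by
    rw [← Matrix.det_transpose]
    rfl
  rw [e6, h, smul_zero]

theorem exists_minor {m n : Type} [Fintype m] [DecidableEq m] [Fintype n] [DecidableEq n]
    (A : Matrix m n ℚ) (h : LinearIndependent ℚ (fun g : m => fun w : n => A g w)) :
    ∃ p : m → n, (A.submatrix id p).det ≠ 0 := by
  by_contra hc
  push Not at hc
  have hinj : Function.Injective A.vecMulLinear := by
    have := (Matrix.vecMul_injective_iff (M := A)).2 h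
    exact this
  obtain ⟨g, hg⟩ := LinearMap.exists_leftInverse_of_injective A.vecMulLinear
    (LinearMap.ker_eq_bot.2 hinj)
  let B : Matrix n m ℚ := (LinearMap.toMatrix' g)ᵀ
  have hAB : A * B = 1 := by
    have h1 : LinearMap.toMatrix' (g ∘ₗ A.vecMulLinear) = 1 := by
      rw [hg, LinearMap.toMatrix'_id]
    rw [LinearMap.toMatrix'_comp] at h1
    have h2 : LinearMap.toMatrix' A.vecMulLinear = Aᵀ := by
      ext i j
      simp [LinearMap.toMatrix'_apply]
    rw [h2] at h1
    have h3 := congrArg Matrix.transpose h1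
    rw [Matrix.transpose_mul, Matrix.transpose_transpose, Matrix.transpose_one] at h3
    exact h3
  have := det_mul_zero A B hc
  rw [hAB, Matrix.det_one] at this
  exact one_ne_zero this

/-- the number of the classes of integer vectors modulo the image of a matrix -/
theorem card_quot {m : Type} [Fintype m] [DecidableEq m] (A : Matrix m m ℤ) (h : A.det ≠ 0) :
    Nat.card ((m → ℤ) ⧸ LinearMap.range A.mulVecLin) = A.det.natAbs := by
  have hinj : Function.Injective A.mulVecLin := by
    rw [← LinearMap.ker_eq_bot, LinearMap.ker_eq_bot']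
    intro x hx
    have h1 : A.adjugate *ᵥ (A *ᵥ x) = 0 := by
      have : A *ᵥ x = 0 := hx
      rw [this, Matrix.mulVec_zero]
    rw [Matrix.mulVec_mulVec, Matrix.adjugate_mul, Matrix.smul_mulVec, Matrix.one_mulVec] at h1
    exact (smul_eq_zero.1 h1).resolve_left h
  let e := LinearEquiv.ofInjective A.mulVecLin hinj
  rw [← Submodule.natAbs_det_equiv (LinearMap.range A.mulVecLin) e]
  congr 1
  have : (LinearMap.range A.mulVecLin).subtype ∘ₗ
      AddMonoidHom.toIntLinearMap (e : (m → ℤ) →+ LinearMap.range A.mulVecLin) =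
      Matrix.toLin' A := by
    ext x i
    rfl
  rw [this, LinearMap.det_toLin']

/-- the representative in `[0, 1)` -/
theorem exists_rep (θ : UnitAddCircle) : ∃ r : ℝ, 0 ≤ r ∧ r < 1 ∧ ((r : ℝ) : UnitAddCircle) = θ := by
  obtain ⟨x, rfl⟩ := QuotientAddGroup.mk_surjective θ
  refine ⟨Int.fract x, Int.fract_nonneg x, Int.fract_lt_one x, ?_⟩
  have h : ((Int.fract x - x : ℝ) : UnitAddCircle) = 0 := by
    rw [AddCircle.coe_eq_zero_iff]
    refine ⟨-⌊x⌋, ?_⟩
    have := Int.fract_add_floor x
    simp only [neg_smul, zsmul_eq_mul, mul_one]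
    linarith
  rw [AddCircle.coe_sub, sub_eq_zero] at h
  exact h

theorem norm_le (x : ℝ) (z : ℤ) : ‖((x : ℝ) : UnitAddCircle)‖ ≤ |x - z| := by
  rw [UnitAddCircle.norm_eq]
  exact round_le x z

theorem split_sum {m n : Type} [Fintype m] [Fintype n] [DecidableEq n] (e : m → n)
    (he : Function.Injective e) (f : n → ℝ) :
    ∑ w, f w = ∑ j, f (e j) + ∑ w : {w // w ∉ Set.range e}, f w := by
  classical
  rw [← Fintype.sum_subtype_add_sum_subtype (fun w => w ∈ Set.range e) f]
  congr 1
  have h := ((Equiv.ofInjective e he).sum_comp (fun w : Set.range e => f w)).symm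
  convert h
  rfl

theorem num {κ n : ℕ} (hκ : κ ≤ n) {δ : ℝ} (hδ : 0 < δ) (hδ2 : δ ≤ 1 / 2) :
    (((⌊(κ : ℝ) / δ⌋₊ + 1 : ℕ) : ℝ)) ^ κ ≤ Real.exp 1 * ((n : ℝ) ^ 2 / δ) ^ κ := by
  have he : (2 : ℝ) ≤ Real.exp 1 := by
    have := Real.add_one_le_exp (1 : ℝ)
    linarith
  rcases Nat.eq_zero_or_pos κ with h0 | h0
  · subst h0
    simp only [pow_zero, mul_one]
    linarith
  have h1 : (((⌊(κ : ℝ) / δ⌋₊ + 1 : ℕ) : ℝ)) ≤ ((κ : ℝ) + 1 / 2) / δ := by
    push_cast
    have h2 : ((⌊(κ : ℝ) / δ⌋₊ : ℕ) : ℝ) ≤ (κ : ℝ) / δ := Nat.floor_le (by positivity)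
    rw [add_div]
    have h3 : 1 ≤ 1 / 2 / δ := by
      rw [le_div_iff₀ hδ]
      linarith
    linarith
  have hκr : (1 : ℝ) ≤ κ := by exact_mod_cast h0
  rcases Nat.lt_or_ge n 2 with hn | hn
  · have hn1 : n = 1 := by omega
    have hk1 : κ = 1 := by omega
    subst hn1
    subst hk1
    rw [pow_one, pow_one]
    refine h1.trans ?_
    push_cast
    have : (1 + 1 / 2) / δ ≤ 2 * (1 ^ 2 / δ) := by
      rw [div_le_iff₀ hδ]
      field_simp
      norm_num
    refine this.trans ?_
    exact mul_le_mul_of_nonneg_right he (by positivity)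
  · have hnr : (2 : ℝ) ≤ n := by exact_mod_cast hn
    have hκn : (κ : ℝ) ≤ n := by exact_mod_cast hκ
    have h4 : (((⌊(κ : ℝ) / δ⌋₊ + 1 : ℕ) : ℝ)) ≤ (n : ℝ) ^ 2 / δ := by
      refine h1.trans ?_
      gcongr
      nlinarith
    calc _ ≤ ((n : ℝ) ^ 2 / δ) ^ κ := pow_le_pow_left₀ (by positivity) h4 _
      _ ≤ _ := le_mul_of_one_le_left (by positivity) (by linarith)

theorem task_HAD : Pool.Agent.Q6.TY.S_HAD := by
  intro W W' _ _ _ R hR hrow δ hδ hδ2 A hA hsep
  classical
  -- a maximal minor
  have hne : ∃ p : W' → W, (R.submatrix id p).det ≠ 0 := by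
    obtain ⟨p, hp⟩ := exists_minor (fun g w => (R g w : ℚ)) hR
    refine ⟨p, fun h0 => hp ?_⟩
    have := (Int.castRingHom ℚ).map_det (R.submatrix id p)
    rw [h0] at this
    simp only [map_zero] at this
    rw [this]
    rfl
  obtain ⟨p0, hp0⟩ := hne
  have : Nonempty (W' → W) := ⟨p0⟩
  obtain ⟨e, hmax⟩ := Finite.exists_max (fun p : W' → W => |(R.submatrix id p).det|)
  set RJ := R.submatrix id e with hRJ
  set D := RJ.det with hD
  have hD0 : D ≠ 0 := by
    intro h0
    have := hmax p0
    rw [h0, abs_zero] at this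
    exact hp0 (abs_nonpos_iff.1 this)
  have he : Function.Injective e := by
    intro i j hij
    by_contra hne
    apply hD0
    rw [hD]
    refine Matrix.det_zero_of_column_eq hne fun g => ?_
    simp [hRJ, hij]
  -- Cramer
  set c : W → W' → ℤ := fun w => cramer RJ (fun g => R g w) with hc
  have hc1 : ∀ w, RJ *ᵥ c w = fun g => D * R g w := by
    intro w
    rw [hc]
    simp only
    rw [Matrix.mulVec_cramer]
    rfl
  have hc2 : ∀ w i, |c w i| ≤ |D| := by
    intro w i
    have h1 : c w i = (R.submatrix id (Function.update e i w)).det := by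
      rw [hc]
      simp only
      rw [Matrix.cramer_apply]
      congr 1
      ext g j
      by_cases hj : j = i
      · subst hj
        simp
      · simp [hj, hRJ]
    rw [h1]
    exact hmax _
  -- Hadamard
  have hDr : (|D| : ℝ) ≤ Real.sqrt 3 ^ Fintype.card W' := by
    have h1 : ((D : ℤ) : ℝ) = (RJ.map (fun z : ℤ => (z : ℝ))).det := by
      have := (Int.castRingHom ℝ).map_det RJ
      simpa [hD] using this
    rw [h1]
    refine hadamard _ 3 fun i => ?_
    have h2 : ∑ j, (RJ.map (fun z : ℤ => (z : ℝ))) i j ^ 2 ≤ ∑ w, ((R i w : ℤ) : ℝ) ^ 2 := by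
      rw [split_sum e he]
      have : 0 ≤ ∑ w : {w // w ∉ Set.range e}, ((R i w : ℤ) : ℝ) ^ 2 :=
        Finset.sum_nonneg fun _ _ => sq_nonneg _
      simp only [Matrix.map_apply, hRJ, Matrix.submatrix_apply, id]
      linarith
    refine h2.trans ?_
    exact_mod_cast hrow i
  -- the quotient
  have hcq := card_quot RJ hD0
  have hfin : Finite ((W' → ℤ) ⧸ LinearMap.range RJ.mulVecLin) := by
    refine Nat.finite_of_card_ne_zero ?_
    rw [hcq]
    exact Int.natAbs_ne_zero.2 hD0
  -- representatives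
  choose r hr0 hr1 hr using exists_rep
  set mm : (W → UnitAddCircle) → W' → ℤ := fun y g => round (∑ w, (R g w : ℝ) * r (y w)) with hmm
  have hm : ∀ y ∈ A, ∀ g, ∑ w, (R g w : ℝ) * r (y w) = mm y g := by
    intro y hy g
    have h1 : ((∑ w, (R g w : ℝ) * r (y w) : ℝ) : UnitAddCircle) = 0 := by
      rw [← hA y hy g]
      have h2 : ∀ s : Finset W, ((∑ w ∈ s, (R g w : ℝ) * r (y w) : ℝ) : UnitAddCircle) =
          ∑ w ∈ s, R g w • y w := by
        intro s
        induction s using Finset.induction_on with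
        | empty => simp
        | insert a s ha ih =>
          rw [Finset.sum_insert ha, Finset.sum_insert ha, AddCircle.coe_add, ih]
          congr 1
          rw [← hr (y a)]
          rw [← zsmul_eq_mul, AddCircle.coe_zsmul, hr]
      exact h2 _
    rw [AddCircle.coe_eq_zero_iff] at h1
    obtain ⟨n, hn⟩ := h1
    simp only [zsmul_eq_mul, mul_one] at hn
    rw [hmm]
    simp only
    rw [← hn, round_intCast]
  -- the boxes
  set K := {w // w ∉ Set.range e} with hK
  set κ := Fintype.card W - Fintype.card W' with hκ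
  have hcardK : Fintype.card K = κ := by
    have h1 := Fintype.card_subtype_compl (fun w => w ∈ Set.range e)
    have h2 : Fintype.card {w // w ∈ Set.range e} = Fintype.card W' :=
      (Fintype.card_congr (Equiv.ofInjective e he)).symm
    rw [h2] at h1
    exact h1
  set N : ℕ := ⌊(κ : ℝ) / δ⌋₊ + 1 with hN
  have hN0 : (0 : ℝ) < N := by
    rw [hN]
    positivity
  have hNk : (κ : ℝ) / N < δ := by
    rw [div_lt_iff₀ hN0]
    have := Nat.lt_floor_add_one ((κ : ℝ) / δ)
    rw [div_lt_iff₀ hδ] at this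
    rw [hN]
    push_cast
    linarith
  have hbox : ∀ θ : UnitAddCircle, ⌊(N : ℝ) * r θ⌋₊ < N := by
    intro θ
    rw [Nat.floor_lt (by have := hr0 θ; positivity)]
    have := hr1 θ
    nlinarith
  set Φ : (W → UnitAddCircle) → (K → Fin N) × ((W' → ℤ) ⧸ LinearMap.range RJ.mulVecLin) :=
    fun y => (fun w => ⟨⌊(N : ℝ) * r (y w)⌋₊, hbox _⟩, Submodule.Quotient.mk (mm y)) with hΦ
  have hinj : Set.InjOn Φ A := by
    intro y hy y' hy' hyy
    by_contra hne
    obtain ⟨w0, hw0⟩ := hsep y hy y' hy' hne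
    rw [hΦ] at hyy
    simp only [Prod.mk.injEq] at hyy
    obtain ⟨hb, hq⟩ := hyy
    set a : W → ℝ := fun w => r (y w) - r (y' w) with ha
    have hac : ∀ w, ((a w : ℝ) : UnitAddCircle) = y w - y' w := by
      intro w
      rw [ha]
      simp only
      rw [AddCircle.coe_sub, hr, hr]
    have haK : ∀ w : K, |a w| < 1 / N := by
      intro w
      have h1 := congrFun hb w
      simp only [Fin.mk.injEq] at h1
      have p1 := Nat.floor_le (mul_nonneg hN0.le (hr0 (y w)))
      have p2 := Nat.lt_floor_add_one ((N : ℝ) * r (y w))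
      have p3 := Nat.floor_le (mul_nonneg hN0.le (hr0 (y' w)))
      have p4 := Nat.lt_floor_add_one ((N : ℝ) * r (y' w))
      rw [h1] at p1 p2
      have h2 : |(N : ℝ) * a w| < 1 := by
        rw [abs_lt, ha]
        simp only
        constructor <;> nlinarith
      rw [abs_mul, abs_of_pos hN0] at h2
      rw [lt_div_iff₀ hN0]
      linarith
    have hS : ∑ w : K, |a w| < δ := by
      refine lt_of_le_of_lt ?_ hNk
      calc ∑ w : K, |a w| ≤ ∑ _w : K, 1 / (N : ℝ) := Finset.sum_le_sum fun w _ => (haK w).le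
        _ = (κ : ℝ) / N := by
          rw [Finset.sum_const, Finset.card_univ, hcardK, nsmul_eq_mul]
          ring
    have hl := (Submodule.Quotient.eq _).1 hq
    obtain ⟨l, hl⟩ := hl
    have hl' : ∀ g, ∑ j, (RJ g j : ℝ) * l j = (mm y g : ℝ) - mm y' g := by
      intro g
      have h1 := congrFun hl g
      simp only [Matrix.mulVecLin_apply, Matrix.mulVec, dotProduct, Pi.sub_apply] at h1
      have h2 : ((∑ j, RJ g j * l j : ℤ) : ℝ) = ((mm y g - mm y' g : ℤ) : ℝ) := by rw [h1]
      push_cast at h2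
      exact h2
    have hsum : ∀ g, ∑ w, (R g w : ℝ) * a w = (mm y g : ℝ) - mm y' g := by
      intro g
      rw [← hm y hy g, ← hm y' hy' g, ← Finset.sum_sub_distrib]
      exact Finset.sum_congr rfl fun w _ => by rw [ha]; ring
    have hcr : ∀ (w : W) (g : W'), ∑ j, (RJ g j : ℝ) * c w j = (D : ℝ) * R g w := by
      intro w g
      have h1 := congrFun (hc1 w) g
      simp only [Matrix.mulVec, dotProduct] at h1
      exact_mod_cast h1
    set v : W' → ℝ := fun j => (D : ℝ) * (a (e j) - l j) + ∑ w : K, (c w j : ℝ) * a w with hv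
    have hv0 : v = 0 := by
      refine Matrix.eq_zero_of_mulVec_eq_zero (M := RJ.map (fun z : ℤ => (z : ℝ))) ?_ ?_
      · have h1 := (Int.castRingHom ℝ).map_det RJ
        have h2 : ((D : ℤ) : ℝ) = (RJ.map (fun z : ℤ => (z : ℝ))).det := by
          simpa [hD] using h1
        rw [← h2]
        exact_mod_cast hD0
      · ext g
        simp only [Matrix.mulVec, dotProduct, Matrix.map_apply, Pi.zero_apply, hv]
        have h3 : ∀ j, (RJ g j : ℝ) * ((D : ℝ) * (a (e j) - l j) + ∑ w : K, (c w j : ℝ) * a w) =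
            (D : ℝ) * ((R g (e j) : ℝ) * a (e j)) - (D : ℝ) * ((RJ g j : ℝ) * l j) +
              ∑ w : K, ((RJ g j : ℝ) * c w j) * a w := by
          intro j
          rw [mul_add, Finset.mul_sum]
          congr 1
          · have : RJ g j = R g (e j) := rfl
            rw [this]
            ring
          · exact Finset.sum_congr rfl fun w _ => by ring
        simp only [h3]
        rw [Finset.sum_add_distrib, Finset.sum_sub_distrib, ← Finset.mul_sum, ← Finset.mul_sum,
          Finset.sum_comm]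
        have h4 : ∀ w : K, ∑ j, ((RJ g j : ℝ) * c w j) * a w = (D : ℝ) * ((R g w : ℝ) * a w) := by
          intro w
          rw [← Finset.sum_mul, hcr]
          ring
        simp only [h4]
        rw [← Finset.mul_sum, hl']
        have h5 := split_sum e he (fun w => (R g w : ℝ) * a w)
        rw [hsum] at h5
        have h6 : (D : ℝ) * ∑ j, (R g (e j) : ℝ) * a (e j) - D * ((mm y g : ℝ) - mm y' g) +
            D * ∑ w : K, (R g w : ℝ) * a w = 0 := by
          rw [h5]
          ring
        exact h6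
    have haJ : ∀ j, |a (e j) - l j| < δ := by
      intro j
      refine lt_of_le_of_lt ?_ hS
      have h1 := congrFun hv0 j
      simp only [hv, Pi.zero_apply] at h1
      have h2 : |(D : ℝ)| * |a (e j) - l j| ≤ |(D : ℝ)| * ∑ w : K, |a w| := by
        rw [← abs_mul, eq_neg_of_add_eq_zero_left h1, abs_neg, Finset.mul_sum]
        refine (Finset.abs_sum_le_sum_abs _ _).trans (Finset.sum_le_sum fun w _ => ?_)
        rw [abs_mul]
        refine mul_le_mul_of_nonneg_right ?_ (abs_nonneg _)
        exact_mod_cast hc2 w j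
      exact le_of_mul_le_mul_left h2 (abs_pos.2 (by exact_mod_cast hD0))
    have hlt : ‖y w0 - y' w0‖ < δ := by
      rw [← hac w0]
      by_cases hw : w0 ∈ Set.range e
      · obtain ⟨j, rfl⟩ := hw
        exact lt_of_le_of_lt (norm_le _ (l j)) (haJ j)
      · have h1 := norm_le (a w0) 0
        rw [Int.cast_zero, sub_zero] at h1
        refine lt_of_le_of_lt (h1.trans ?_) hS
        exact Finset.single_le_sum (f := fun w : K => |a w|) (fun _ _ => abs_nonneg _)
          (Finset.mem_univ ⟨w0, hw⟩)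
    exact absurd hw0 (not_le.2 hlt)
  have := Fintype.ofFinite ((W' → ℤ) ⧸ LinearMap.range RJ.mulVecLin)
  have hcard := Finset.card_le_card_of_injOn Φ (fun _ _ => Finset.mem_univ _) hinj
  rw [Finset.card_univ, Fintype.card_prod, Fintype.card_fun, Fintype.card_fin, hcardK,
    ← Nat.card_eq_fintype_card, hcq] at hcard
  have hκn : κ ≤ Fintype.card W := Nat.sub_le _ _
  have hnum := num hκn hδ hδ2
  calc (A.card : ℝ) ≤ (N : ℝ) ^ κ * (D.natAbs : ℝ) := by exact_mod_cast hcard
    _ ≤ (Real.exp 1 * ((Fintype.card W : ℝ) ^ 2 / δ) ^ κ) * Real.sqrt 3 ^ Fintype.card W' := by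
      have h1 : (D.natAbs : ℝ) = |(D : ℝ)| := by
        rw [Nat.cast_natAbs]
        push_cast
        rfl
      rw [h1]
      exact mul_le_mul hnum hDr (abs_nonneg _) (by positivity)
    _ = _ := by ring

end Pool.Agent.Q128.TY.HAD
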