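import Pool.Agent.Q6.TY.Stm2
import Pool.Agent.Q190.TY.TORP

/-!
# Project TY, job TY-HADA: application of the counting lemma to a linear trinomial
-/

set_option autoImplicit false
set_option maxHeartbeats 400000

namespace Pool.Agent.Q128.TY.HADA

open MvPolynomial Pool.Agent.Q6.TY Pool.Agent.Q190.TY

/-- the classes of the exponents of degree at most `m` -/
def Wm {t : ℕ} (V : Submodule ℚ (Fin t → ℚ)) (m : ℕ) : Type :=
  {g : (Fin t → ℚ) ⧸ V // ∃ u : Fin t →₀ ℕ, u.degree ≤ m ∧ V.mkQ (ev u) = g}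

theorem le_deg {t : ℕ} (u : Fin t →₀ ℕ) (i : Fin t) : u i ≤ u.degree := by
  rw [Finsupp.degree_eq_sum]
  exact Finset.single_le_sum (f := fun j => u j) (fun _ _ => Nat.zero_le _) (Finset.mem_univ i)

instance {t : ℕ} (V : Submodule ℚ (Fin t → ℚ)) (m : ℕ) : Finite (Wm V m) := by
  have h1 : Finite {u : Fin t →₀ ℕ // u.degree ≤ m} := by
    refine Finite.of_injective
      (fun u : {u : Fin t →₀ ℕ // u.degree ≤ m} => fun i : Fin t =>
        (⟨u.1 i, Nat.lt_succ_of_le ((le_deg u.1 i).trans u.2)⟩ : Fin (m + 1))) ?_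
    intro u v h
    apply Subtype.ext
    ext i
    have := congrFun h i
    simpa using this
  refine Finite.of_surjective (fun u : {u : Fin t →₀ ℕ // u.degree ≤ m} =>
    (⟨V.mkQ (ev u.1), u.1, u.2, rfl⟩ : Wm V m)) ?_
  rintro ⟨g, u, hu, rfl⟩
  exact ⟨⟨u, hu⟩, rfl⟩

theorem ev_add {t : ℕ} (u v : Fin t →₀ ℕ) : ev (u + v) = ev u + ev v := by
  funext i
  simp [ev]

section

variable {t : ℕ} {p : Fin t → ℂ} {V : Submodule ℚ (Fin t → ℚ)}

theorem mk_eq (hT : S_TORP) (hp : ∀ i, p i ≠ 0)
    (hV : ∀ u v : Fin t →₀ ℕ, V.mkQ (ev u) = V.mkQ (ev v) → pw p u = pw p v)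
    {u v : Fin t →₀ ℕ} (h : V.mkQ (ev u) = V.mkQ (ev v)) :
    (monomial u (1 : ℤ) - monomial v 1) ∈ tor p V := by
  have h6 := (hT t p hp).2.2.2.2.2.1
  refine h6 V u v 1 ?_ ?_
  · rw [dif_eq, ← Submodule.Quotient.eq]
    exact h
  · rw [mem_mx, map_sub, evh_monomial, evh_monomial, hV u v h, sub_self]

theorem card_Wm [∀ m, Fintype (Wm V m)] (hT : S_TORP) (hp : ∀ i, p i ≠ 0)
    (hV : ∀ u v : Fin t →₀ ℕ, V.mkQ (ev u) = V.mkQ (ev v) → pw p u = pw p v) (m : ℕ) :
    k (tor p V) m = Fintype.card (Wm V m) := by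
  classical
  choose rep hrep1 hrep2 using fun g : Wm V m => g.2
  set b : Wm V m → P t ⧸ tor p V := fun g => Ideal.Quotient.mk _ (monomial (rep g) 1) with hb
  have hmk : ∀ u : Fin t →₀ ℕ, ∀ hu : u.degree ≤ m,
      Ideal.Quotient.mk (tor p V) (monomial u 1) = b ⟨V.mkQ (ev u), u, hu, rfl⟩ := by
    intro u hu
    rw [hb]
    simp only
    rw [Ideal.Quotient.eq]
    refine mk_eq hT hp hV ?_
    rw [hrep2]
  have hli : LinearIndependent ℤ b := by
    rw [Fintype.linearIndependent_iff]
    intro c hc g0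
    have h1 : (∑ g, c g • monomial (rep g) (1 : ℤ) : P t) ∈ tor p V := by
      rw [← Ideal.Quotient.eq_zero_iff_mem, map_sum, ← hc]
      refine Finset.sum_congr rfl fun g _ => ?_
      rw [hb, map_zsmul]
    rw [mem_tor, map_sum] at h1
    have h2 : ∀ g, torHom p V (c g • monomial (rep g) (1 : ℤ)) =
        AddMonoidAlgebra.single g.1 (((c g : ℤ) : ℂ) * pw p (rep g)) := by
      intro g
      rw [smul_monomial, smul_eq_mul, mul_one, torHom_monomial, hrep2]
    simp only [h2] at h1
    have h3 := congrArg (fun x => AddMonoidAlgebra.coeff x g0.1) h1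
    simp only [AddMonoidAlgebra.coeff_sum, AddMonoidAlgebra.coeff_single,
      AddMonoidAlgebra.coeff_zero, Finsupp.coe_zero, Pi.zero_apply] at h3
    rw [Finsupp.finsetSum_apply, Finset.sum_eq_single g0] at h3
    · rw [Finsupp.single_eq_same] at h3
      rcases mul_eq_zero.1 h3 with h4 | h4
      · exact_mod_cast h4
      · exact absurd h4 (pw_ne hp _)
    · intro g _ hg
      rw [Finsupp.single_eq_of_ne]
      intro h
      apply hg
      apply Subtype.ext
      first | exact h | exact h.symm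
    · intro h
      exact absurd (Finset.mem_univ _) h
  have hspan : Md (tor p V) m = Submodule.span ℤ (Set.range b) := by
    apply le_antisymm
    · rintro _ ⟨f, hf, rfl⟩
      have hf' : f.totalDegree ≤ m := (mem_restrictTotalDegree _ _ _).1 hf
      have h1 : (Ideal.Quotient.mkₐ ℤ (tor p V)).toLinearMap f =
          ∑ u ∈ f.support, coeff u f • Ideal.Quotient.mk (tor p V) (monomial u 1) := by
        conv_lhs => rw [f.as_sum]
        rw [map_sum]
        refine Finset.sum_congr rfl fun u _ => ?_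
        have h2 : (monomial u (coeff u f) : P t) = coeff u f • monomial u (1 : ℤ) := by
          rw [smul_monomial, smul_eq_mul, mul_one]
        rw [h2, map_smul]
        rfl
      rw [h1]
      refine Submodule.sum_mem _ fun u hu => Submodule.smul_mem _ _ ?_
      have hdeg : u.degree ≤ m := by
        refine le_trans ?_ hf'
        exact le_totalDegree hu
      rw [hmk u hdeg]
      exact Submodule.subset_span ⟨_, rfl⟩
    · rw [Submodule.span_le]
      rintro _ ⟨g, rfl⟩
      refine ⟨monomial (rep g) 1, ?_, rfl⟩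
      refine (mem_restrictTotalDegree _ _ _).2 ?_
      refine (totalDegree_monomial_le _ _).trans ?_
      exact hrep1 g
  unfold k
  rw [hspan, finrank_span_eq_card hli]

end

theorem task_HADA : Pool.Agent.Q6.TY.S_HAD → Pool.Agent.Q6.TY.S_TORP →
    Pool.Agent.Q6.TY.S_HADA := by
  intro hH hT t p x F hx hpx hF a b c ha hb hc hab hac hbc q' hq' hf0 δ hδ hδ2 n N hN
  classical
  set V := Vsp F with hVdef
  have hp : ∀ i, p i ≠ 0 := fun i => by
    rw [hpx]
    exact_mod_cast (hx i).ne'
  -- values of monomials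
  set L : (Fin t → ℚ) →ₗ[ℚ] ℝ :=
    { toFun := fun w => lg x w
      map_add' := fun v w => by
        simp only [lg, Pi.add_apply, Rat.cast_add, add_mul, Finset.sum_add_distrib]
      map_smul' := fun r w => by
        simp only [lg, Pi.smul_apply, smul_eq_mul, Rat.cast_mul, RingHom.id_apply, mul_assoc,
          ← Finset.mul_sum]
        rw [Rat.smul_def] } with hL
  have hpw : ∀ u : Fin t →₀ ℕ, pw p u = ((Real.exp (L (ev u)) : ℝ) : ℂ) := by
    intro u
    have h1 : Real.exp (L (ev u)) = ∏ i, x i ^ u i := by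
      have : L (ev u) = ∑ i, (u i : ℝ) * Real.log (x i) := by
        simp [hL, lg, ev]
      rw [this, Real.exp_sum]
      refine Finset.prod_congr rfl fun i _ => ?_
      rw [← Real.log_pow, Real.exp_log (pow_pos (hx i) _)]
    rw [h1]
    unfold pw
    push_cast
    exact Finset.prod_congr rfl fun i _ => by rw [hpx]
  have hVL : V ≤ LinearMap.ker L := by
    rw [hVdef]
    unfold Vsp
    rw [Submodule.span_le]
    rintro w ⟨f, hfF, u, v, σ, hσ, -, -, hfe, hw⟩
    have h1 := hF f hfF
    rw [hfe, mem_mx, map_sub, evh_monomial, evh_monomial, hpw, hpw, sub_eq_zero] at h1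
    have h2 : Real.exp (L (ev u)) = (σ : ℝ) * Real.exp (L (ev v)) := by
      have h3 : ((Real.exp (L (ev u)) : ℝ) : ℂ) = (((σ : ℝ) * Real.exp (L (ev v)) : ℝ) : ℂ) := by
        push_cast at h1 ⊢
        simpa using h1
      exact_mod_cast h3
    have hσ1 : σ = 1 := by
      rcases hσ with h | h
      · exact h
      · exfalso
        rw [h] at h2
        have e1 := Real.exp_pos (L (ev u))
        have e2 := Real.exp_pos (L (ev v))
        push_cast at h2
        linarith
    rw [hσ1] at h2
    have h3 : L (ev u) = L (ev v) := Real.exp_injective (by simpa using h2)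
    show L w = 0
    rw [hw, dif_eq, map_sub, h3, sub_self]
  have hV : ∀ u v : Fin t →₀ ℕ, V.mkQ (ev u) = V.mkQ (ev v) → pw p u = pw p v := by
    intro u v h
    rw [hpw, hpw]
    have h1 : ev u - ev v ∈ V := (Submodule.Quotient.eq _).1 h
    have h2 : L (ev u - ev v) = 0 := hVL h1
    rw [map_sub, sub_eq_zero] at h2
    rw [h2]
  have : ∀ m, Fintype (Wm V m) := fun m => Fintype.ofFinite _
  have hk := card_Wm (V := V) hT hp hV
  -- the classes
  set ca : (Fin t → ℚ) ⧸ V := V.mkQ (ev a) with hca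
  set cb : (Fin t → ℚ) ⧸ V := V.mkQ (ev b) with hcb
  set cc : (Fin t → ℚ) ⧸ V := V.mkQ (ev c) with hcc
  have nab : ca ≠ cb := fun h => hab (by rw [dif_eq]; exact (Submodule.Quotient.eq _).1 h)
  have nac : ca ≠ cc := fun h => hac (by rw [dif_eq]; exact (Submodule.Quotient.eq _).1 h)
  have nbc : cb ≠ cc := fun h => hbc (by rw [dif_eq]; exact (Submodule.Quotient.eq _).1 h)
  -- shifts
  have hsh : ∀ d : Fin t →₀ ℕ, d.degree ≤ 1 → ∀ g : Wm V n,
      ∃ u : Fin t →₀ ℕ, u.degree ≤ n + 1 ∧ V.mkQ (ev u) = g.1 + V.mkQ (ev d) := by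
    rintro d hd ⟨g, u, hu, rfl⟩
    refine ⟨u + d, ?_, ?_⟩
    · rw [map_add]
      omega
    · rw [ev_add, map_add]
  let sh : ∀ d : Fin t →₀ ℕ, d.degree ≤ 1 → Wm V n → Wm V (n + 1) := fun d hd g =>
    ⟨g.1 + V.mkQ (ev d), hsh d hd g⟩
  let R : Matrix (Wm V n) (Wm V (n + 1)) ℤ := fun g w =>
    (if w = sh a ha g then 1 else 0) + (if w = sh b hb g then 1 else 0) -
      (if w = sh c hc g then 1 else 0)
  have dab : ∀ g, sh a ha g ≠ sh b hb g := fun g h => nab (by
    have := congrArg Subtype.val h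
    exact add_left_cancel this)
  have dac : ∀ g, sh a ha g ≠ sh c hc g := fun g h => nac (by
    have := congrArg Subtype.val h
    exact add_left_cancel this)
  have dbc : ∀ g, sh b hb g ≠ sh c hc g := fun g h => nbc (by
    have := congrArg Subtype.val h
    exact add_left_cancel this)
  have hrow : ∀ g, ∑ w, (R g w) ^ 2 ≤ 3 := by
    intro g
    have h1 : ∀ w, (R g w) ^ 2 = (if w = sh a ha g then 1 else 0) + (if w = sh b hb g then 1 else 0) +
      (if w = sh c hc g then 1 else 0) := by
      intro w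
      simp only [R]
      by_cases h1 : w = sh a ha g
      · have h2 : w ≠ sh b hb g := fun h => dab g (h1.symm.trans h)
        have h3 : w ≠ sh c hc g := fun h => dac g (h1.symm.trans h)
        rw [if_pos h1, if_neg h2, if_neg h3]
        norm_num
      · by_cases h2 : w = sh b hb g
        · have h3 : w ≠ sh c hc g := fun h => dbc g (h2.symm.trans h)
          rw [if_neg h1, if_pos h2, if_neg h3]
          norm_num
        · by_cases h3 : w = sh c hc g
          · rw [if_neg h1, if_neg h2, if_pos h3]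
            norm_num
          · rw [if_neg h1, if_neg h2, if_neg h3]
            norm_num
    simp only [h1]
    rw [Finset.sum_add_distrib, Finset.sum_add_distrib]
    simp
  -- independence
  have hlin : LinearIndependent ℚ (fun g : Wm V n => fun w : Wm V (n + 1) => (R g w : ℚ)) := by
    rw [Fintype.linearIndependent_iff]
    intro lam hlam g0
    let Ψ : (Wm V (n + 1) → ℚ) →ₗ[ℚ] AddMonoidAlgebra ℚ ((Fin t → ℚ) ⧸ V) :=
      ∑ w, (AddMonoidAlgebra.lsingle w.1).comp (LinearMap.proj w)
    have hΨ : ∀ w0 : Wm V (n + 1), Ψ (Pi.single w0 1) = AddMonoidAlgebra.single w0.1 1 := by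
      intro w0
      have h1 : Ψ (Pi.single w0 1) = ∑ w : Wm V (n + 1),
          AddMonoidAlgebra.single w.1 ((Pi.single w0 1 : Wm V (n + 1) → ℚ) w) := by
        simp [Ψ, LinearMap.sum_apply]
      rw [h1, Finset.sum_eq_single w0]
      · rw [Pi.single_eq_same]
      · intro w _ hw
        rw [Pi.single_eq_of_ne hw, AddMonoidAlgebra.single_zero]
      · intro h
        exact absurd (Finset.mem_univ _) h
    set Y : AddMonoidAlgebra ℚ ((Fin t → ℚ) ⧸ V) :=
      AddMonoidAlgebra.single ca 1 + AddMonoidAlgebra.single cb 1 - AddMonoidAlgebra.single cc 1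
      with hY
    have hrowΨ : ∀ g : Wm V n, Ψ (fun w => (R g w : ℚ)) = AddMonoidAlgebra.single g.1 1 * Y := by
      intro g
      have h1 : (fun w => (R g w : ℚ)) = Pi.single (sh a ha g) 1 + Pi.single (sh b hb g) 1 -
          Pi.single (sh c hc g) 1 := by
        funext w
        simp only [R, Pi.sub_apply, Pi.add_apply, Pi.single_apply]
        push_cast
        rfl
      rw [h1, map_sub, map_add, hΨ, hΨ, hΨ, hY, mul_sub, mul_add,
        AddMonoidAlgebra.single_mul_single, AddMonoidAlgebra.single_mul_single,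
        AddMonoidAlgebra.single_mul_single, one_mul]
    have h2 : (∑ g, lam g • AddMonoidAlgebra.single g.1 (1 : ℚ)) * Y = 0 := by
      have h3 := congrArg Ψ hlam
      rw [map_sum, map_zero] at h3
      rw [Finset.sum_mul, ← h3]
      refine Finset.sum_congr rfl fun g _ => ?_
      rw [map_smul, hrowΨ, smul_mul_assoc]
    have hY0 : Y ≠ 0 := by
      intro h0
      have h3 := congrArg (fun x => AddMonoidAlgebra.coeff x ca) h0
      rw [hY] at h3
      simp only [AddMonoidAlgebra.coeff_sub, AddMonoidAlgebra.coeff_add,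
        AddMonoidAlgebra.coeff_single, AddMonoidAlgebra.coeff_zero, Finsupp.coe_sub,
        Finsupp.coe_add, Finsupp.coe_zero, Pi.sub_apply, Pi.add_apply, Pi.zero_apply] at h3
      rw [Finsupp.single_eq_same, Finsupp.single_eq_of_ne nab,
        Finsupp.single_eq_of_ne nac] at h3
      norm_num at h3
    have h4 := (mul_eq_zero.1 h2).resolve_right hY0
    have h5 := congrArg (fun x => AddMonoidAlgebra.coeff x g0.1) h4
    simp only [AddMonoidAlgebra.smul_single, AddMonoidAlgebra.coeff_sum,
      AddMonoidAlgebra.coeff_single,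
      AddMonoidAlgebra.coeff_zero, Finsupp.coe_zero, Pi.zero_apply] at h5
    rw [Finsupp.finsetSum_apply, Finset.sum_eq_single g0] at h5
    · rw [Finsupp.single_eq_same] at h5
      simpa using h5
    · intro g _ hg
      rw [Finsupp.single_eq_of_ne]
      intro h
      apply hg
      apply Subtype.ext
      first | exact h | exact h.symm
    · intro h
      exact absurd (Finset.mem_univ _) h
  -- the points
  obtain ⟨A, hAN, hA0, hAsep⟩ := hN
  choose rep hrep1 hrep2 using fun g : Wm V (n + 1) => g.2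
  let X : (P t →+ UnitAddCircle) → Wm V (n + 1) → UnitAddCircle := fun φ w =>
    φ (monomial (rep w) 1)
  have hX : ∀ φ ∈ A, ∀ u : Fin t →₀ ℕ, ∀ w : Wm V (n + 1), V.mkQ (ev u) = w.1 →
      X φ w = φ (monomial u 1) := by
    intro φ hφ u w huw
    have h1 : (monomial (rep w) (1 : ℤ) - monomial u 1) ∈ tor p V :=
      mk_eq hT hp hV ((hrep2 w).trans huw.symm)
    have h2 := hA0 φ hφ _ (hq' h1)
    rw [map_sub, sub_eq_zero] at h2
    exact h2
  have hker : ∀ y ∈ A.image X, ∀ g, ∑ w, R g w • y w = 0 := by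
    intro y hy g
    obtain ⟨φ, hφ, rfl⟩ := Finset.mem_image.1 hy
    obtain ⟨u, hu, hug⟩ := g.2
    have h1 : ∑ w, R g w • X φ w = X φ (sh a ha g) + X φ (sh b hb g) - X φ (sh c hc g) := by
      have h2 : ∀ w, R g w • X φ w = (if w = sh a ha g then X φ w else 0) +
          (if w = sh b hb g then X φ w else 0) - (if w = sh c hc g then X φ w else 0) := by
        intro w
        simp only [R]
        rw [sub_smul, add_smul]
        simp only [ite_smul, one_smul, zero_smul]
      simp only [h2]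
      rw [Finset.sum_sub_distrib, Finset.sum_add_distrib]
      simp
    rw [h1, hX φ hφ (u + a) _ (by rw [ev_add, map_add, hug]),
      hX φ hφ (u + b) _ (by rw [ev_add, map_add, hug]),
      hX φ hφ (u + c) _ (by rw [ev_add, map_add, hug]), ← map_add, ← map_sub]
    refine hA0 φ hφ _ ?_
    have h3 : (monomial (u + a) (1 : ℤ) + monomial (u + b) 1 - monomial (u + c) 1 : P t) =
        monomial u 1 * (monomial a 1 + monomial b 1 - monomial c 1) := by
      rw [mul_sub, mul_add, monomial_mul, monomial_mul, monomial_mul, one_mul]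
    rw [h3]
    exact Ideal.mul_mem_left _ _ hf0
  have hXsep : ∀ φ ∈ A, ∀ ψ ∈ A, φ ≠ ψ → ∃ w, δ ≤ ‖X φ w - X ψ w‖ := by
    intro φ hφ ψ hψ hne
    obtain ⟨u, hu, hd⟩ := hAsep φ hφ ψ hψ hne
    refine ⟨⟨V.mkQ (ev u), u, hu, rfl⟩, ?_⟩
    rw [hX φ hφ u _ rfl, hX ψ hψ u _ rfl]
    exact hd
  have hinj : Set.InjOn X A := by
    intro φ hφ ψ hψ h
    by_contra hne
    obtain ⟨w, hw⟩ := hXsep φ hφ ψ hψ hne
    rw [h, sub_self, norm_zero] at hw
    linarith
  have hfin := hH (Wm V (n + 1)) (Wm V n) R hlin hrow δ hδ hδ2 (A.image X) hker (by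
    intro y hy z hz hyz
    obtain ⟨φ, hφ, rfl⟩ := Finset.mem_image.1 hy
    obtain ⟨ψ, hψ, rfl⟩ := Finset.mem_image.1 hz
    exact hXsep φ hφ ψ hψ (fun h => hyz (by rw [h])))
  rw [Finset.card_image_of_injOn hinj, hAN, ← hk, ← hk] at hfin
  exact hfin

end Pool.Agent.Q128.TY.HADA
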